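import Mathlib
import Pool.Agent.Q264.TMLiminf

/-!
# Ratios of consecutive terms of the Thue-Morse-twisted Fibonacci sequence: the refinement

With `C_{k,i}` the lower limit of `ρ_{2^k n + i + 1}`, Q2 is false: all these lower limits are irrational. With `C_{k,i}`
the infimum of the `ρ_{2^k n + i + 1}` with `2^k n + i ≥ 4` instead, every assertion of Q2 is true: the infimum is
attained (hence rational), `C_{2k,0} = C_{2k+1,0}`, and the listed values are correct.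
-/

set_option autoImplicit false

namespace Pool.Agent.Results.MP_e68cb8_nt.Refinement

open Filter

/-- the Prouhet-Thue-Morse sequence `t_n = (-1) ^ s_2(n)`, `s_2` the sum of the binary digits -/
def t (n : ℕ) : ℤ := (-1) ^ (Nat.digits 2 n).sum

/-- `h_0 = 0`, `h_1 = 1`, `h_n = t_n h_{n-1} + h_{n-2}` -/
def h : ℕ → ℤ
  | 0 => 0
  | 1 => 1
  | n + 2 => t (n + 2) * h (n + 1) + h n

/-- `ρ_n = |h_n| / |h_{n-1}|` (meaningful for `n ≥ 5`), as a rational number -/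
def rho (n : ℕ) : ℚ := |(h n : ℚ)| / |(h (n - 1) : ℚ)|

/-- `C_{k,i}`: the lower limit of `ρ_{2^k n + i + 1}` for `n → ∞` -/
noncomputable def C (k i : ℕ) : ℝ := liminf (fun n : ℕ => (rho (2 ^ k * n + i + 1) : ℝ)) atTop

/-- the assertion of Q2 for a given double sequence `c` of real numbers in place of the `C_{k,i}` -/
def Q2For (c : ℕ → ℕ → ℝ) : Prop :=
  (∀ k, 1 ≤ k → ∀ i, i < 2 ^ k → (∃ q : ℚ, c k i = q) ∧
    ∀ n : ℕ, 4 ≤ 2 ^ k * n + i → c k i * |(h (2 ^ k * n + i) : ℝ)| ≤ |(h (2 ^ k * n + i + 1) : ℝ)|) ∧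
  (∀ k, 1 ≤ k → c (2 * k) 0 = c (2 * k + 1) 0) ∧
  c 1 0 = 2 / 7 ∧ c 2 0 = 2 / 3 ∧ c 3 0 = 2 / 3 ∧ c 4 0 = 64 / 83 ∧ c 5 0 = 64 / 83 ∧
  c 6 0 = 52071130 / 67519091 ∧ c 7 0 = 52071130 / 67519091

theorem h_eq : ∀ n, h n = Q264.TMFib.h n
  | 0 => rfl
  | 1 => rfl
  | n + 2 => by
    rw [h, Q264.TMFib.h, h_eq (n + 1), h_eq n]
    rfl

theorem rho_eq (n : ℕ) : rho n = Q264.TMFib.rho n := by
  unfold rho Q264.TMFib.rho
  rw [h_eq, h_eq]

theorem C_irrational (k i : ℕ) : Irrational (C k i) := by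
  have h1 := Q264.TMFib.liminf_irrational k i
  have h2 : (fun n : ℕ => (rho (2 ^ k * n + i + 1) : ℝ)) =
      (fun n : ℕ => |(Q264.TMFib.h (2 ^ k * n + i + 1) : ℝ)| / |(Q264.TMFib.h (2 ^ k * n + i) : ℝ)|) := by
    funext n
    unfold rho
    rw [h_eq, h_eq]
    push_cast
    rfl
  unfold C
  rw [h2]
  exact h1

theorem not_Q2 : ¬ Q2For C := by
  intro hQ
  obtain ⟨⟨q, hq⟩, -⟩ := hQ.1 1 le_rfl 0 (by norm_num)
  exact C_irrational 1 0 ⟨q, hq.symm⟩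

theorem rho_mul (n : ℕ) (hn : 4 ≤ n) (q : ℚ) (hq : q ≤ rho (n + 1)) : (q : ℝ) * |(h n : ℝ)| ≤ |(h (n + 1) : ℝ)| := by
  have h0 : h n ≠ 0 := by rw [h_eq]; exact Q264.TMFib.h_ne_zero n hn
  have h1 : (0 : ℚ) < |(h n : ℚ)| := by
    rw [abs_pos]; exact_mod_cast h0
  unfold rho at hq
  rw [Nat.add_sub_cancel, le_div_iff₀ h1] at hq
  exact_mod_cast hq

/-- **Q2**: the lower limits are all irrational, so that the assertion fails for them; it holds for the minima. -/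
theorem result :
    (∀ k, 1 ≤ k → ∀ i, i < 2 ^ k → Irrational (C k i)) ∧ ¬ Q2For C ∧
    ∃ m : ℕ → ℕ → ℚ,
      (∀ k, 1 ≤ k → ∀ i, i < 2 ^ k → IsLeast {q : ℚ | ∃ n : ℕ, 4 ≤ 2 ^ k * n + i ∧ q = rho (2 ^ k * n + i + 1)} (m k i)) ∧
      Q2For (fun k i => (m k i : ℝ)) := by
  refine ⟨fun k _ i _ => C_irrational k i, not_Q2, ?_⟩
  obtain ⟨m, h1, h2, h3, h4, h5, h6⟩ := Q264.TMFib.refinement
  have hleast : ∀ k, 1 ≤ k → ∀ i, i < 2 ^ k →
      IsLeast {q : ℚ | ∃ n : ℕ, 4 ≤ 2 ^ k * n + i ∧ q = rho (2 ^ k * n + i + 1)} (m k i) := by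
    intro k hk i hi
    have := h1 k hk i hi
    simp only [rho_eq]
    exact this
  refine ⟨m, hleast, ?_, ?_, ?_, ?_, ?_, ?_, ?_, ?_, ?_⟩
  · intro k hk i hi
    refine ⟨⟨m k i, rfl⟩, fun n hn => ?_⟩
    exact rho_mul _ hn _ ((hleast k hk i hi).2 ⟨n, hn, rfl⟩)
  · intro k hk
    change ((m (2 * k) 0 : ℚ) : ℝ) = ((m (2 * k + 1) 0 : ℚ) : ℝ)
    rw [h2 k hk]
  · change ((m 1 0 : ℚ) : ℝ) = 2 / 7
    rw [h3]; norm_num
  · change ((m 2 0 : ℚ) : ℝ) = 2 / 3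
    rw [h4]; norm_num
  · change ((m 3 0 : ℚ) : ℝ) = 2 / 3
    have := h2 1 le_rfl
    rw [show 2 * 1 + 1 = 3 by norm_num, show 2 * 1 = 2 by norm_num] at this
    rw [← this, h4]; norm_num
  · change ((m 4 0 : ℚ) : ℝ) = 64 / 83
    rw [h5]; norm_num
  · change ((m 5 0 : ℚ) : ℝ) = 64 / 83
    have := h2 2 (by norm_num)
    rw [show 2 * 2 + 1 = 5 by norm_num, show 2 * 2 = 4 by norm_num] at this
    rw [← this, h5]; norm_num
  · change ((m 6 0 : ℚ) : ℝ) = 52071130 / 67519091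
    rw [h6]; norm_num
  · change ((m 7 0 : ℚ) : ℝ) = 52071130 / 67519091
    have := h2 3 (by norm_num)
    rw [show 2 * 3 + 1 = 7 by norm_num, show 2 * 3 = 6 by norm_num] at this
    rw [← this, h6]; norm_num

end Pool.Agent.Results.MP_e68cb8_nt.Refinement
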