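import Mathlib
import Pool.Agent.Q264.TMRatio

/-!
# Ratios of consecutive terms of the Thue-Morse-twisted Fibonacci sequence: the bound `2/7`

`|h_n| ≥ (2/7) |h_{n-1}|` for every `n ≥ 4`.
-/

set_option autoImplicit false

namespace Pool.Agent.Results.MP_e68cb8_nt.TwoSevenths

/-- the Prouhet-Thue-Morse sequence `t_n = (-1) ^ s_2(n)`, `s_2` the sum of the binary digits -/
def t (n : ℕ) : ℤ := (-1) ^ (Nat.digits 2 n).sum

/-- `h_0 = 0`, `h_1 = 1`, `h_n = t_n h_{n-1} + h_{n-2}` -/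
def h : ℕ → ℤ
  | 0 => 0
  | 1 => 1
  | n + 2 => t (n + 2) * h (n + 1) + h n

theorem h_eq : ∀ n, h n = Q264.TMFib.h n
  | 0 => rfl
  | 1 => rfl
  | n + 2 => by
    rw [h, Q264.TMFib.h, h_eq (n + 1), h_eq n]
    rfl

/-- **Q1.** -/
theorem result : ∀ n : ℕ, 4 ≤ n → (2 / 7 : ℚ) * |(h (n - 1) : ℚ)| ≤ |(h n : ℚ)| := by
  intro n hn
  rw [h_eq, h_eq]
  exact Q264.TMFib.two_sevenths n hn

end Pool.Agent.Results.MP_e68cb8_nt.TwoSevenths
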